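import Pool.Agent.Helper491_Par.Final

/-!
# Large sets of `1`-designs over finite fields, in particular halvings

Let `K` be a finite field with `q` elements, `k ≥ 2` and `N ≥ 1`. For all large multiples `v` of `k`
the `k`-subspaces of `K ^ v` can be divided into `N` classes such that each point is in exactly `l i`
members of the `i`-th class, where `l 0, …, l (N - 1)` are arbitrary numbers whose sum is the number
of `k`-subspaces through a point.
-/

set_option autoImplicit false

namespace Pool.Agent.Results.MP_679a49_co.LargeSetsOnPoints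

open Module Finset Pool.Agent.Helper491_Par

/-- A one-dimensional subspace is spanned by any of its nonzero vectors. -/
theorem exists_span {F V : Type} [Field F] [AddCommGroup V] [Module F V] {P : Submodule F V}
    (h : finrank F P = 1) : ∃ v : V, v ≠ 0 ∧ P = Submodule.span F {v} := by
  have hne : P ≠ ⊥ := by
    rintro rfl
    rw [finrank_bot] at h
    exact zero_ne_one h
  obtain ⟨v, hv, hv0⟩ := (Submodule.ne_bot_iff P).1 hne
  have hfd : FiniteDimensional F P := finite_of_finrank_pos (by rw [h]; norm_num)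
  refine ⟨v, hv0, ?_⟩
  symm
  apply Submodule.eq_of_le_of_finrank_eq
  · rw [Submodule.span_le]
    rintro x rfl
    exact hv
  · rw [h, finrank_span_singleton hv0]

theorem exists_equiv {F V : Type} [Field F] [AddCommGroup V] [Module F V] [Module.Finite F V]
    {x y : V} (hx : x ≠ 0) (hy : y ≠ 0) : ∃ g : V ≃ₗ[F] V, g x = y := by
  let f := (LinearEquiv.toSpanNonzeroSingleton F V x hx).symm ≪≫ₗ
    LinearEquiv.toSpanNonzeroSingleton F V y hy
  obtain ⟨g, hg⟩ := Submodule.exists_linearEquiv_restrict_eq f
  refine ⟨g, ?_⟩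
  have h1 := hg ⟨x, Submodule.mem_span_singleton_self x⟩
  have h2 : (LinearEquiv.toSpanNonzeroSingleton F V x hx).symm
      ⟨x, Submodule.mem_span_singleton_self x⟩ = 1 := by
    rw [LinearEquiv.symm_apply_eq]
    ext
    simp
  have h3 : (f ⟨x, Submodule.mem_span_singleton_self x⟩ : V) = y := by
    simp only [f, LinearEquiv.trans_apply, h2]
    simp
  rw [← h3]
  first
    | exact h1
    | exact h1.symm

theorem deg_const {F V : Type} [Field F] [AddCommGroup V] [Module F V] [Module.Finite F V]
    (k : ℕ) {x y : V} (hx : x ≠ 0) (hy : y ≠ 0) :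
    {W : Submodule F V | finrank F W = k ∧ x ∈ W}.ncard =
      {W : Submodule F V | finrank F W = k ∧ y ∈ W}.ncard := by
  obtain ⟨g, hg⟩ := exists_equiv (F := F) hx hy
  have himg : (fun W : Submodule F V => W.map (g : V →ₗ[F] V)) ''
      {W : Submodule F V | finrank F W = k ∧ x ∈ W} =
      {W : Submodule F V | finrank F W = k ∧ y ∈ W} := by
    ext W
    constructor
    · rintro ⟨W, ⟨h1, h2⟩, rfl⟩
      refine ⟨?_, ?_⟩
      · rw [← h1]
        exact LinearEquiv.finrank_map_eq g W
      · exact ⟨x, h2, hg⟩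
    · rintro ⟨h1, h2⟩
      refine ⟨W.map (g.symm : V →ₗ[F] V), ⟨?_, ?_⟩, ?_⟩
      · rw [← h1]
        exact LinearEquiv.finrank_map_eq g.symm W
      · exact ⟨y, h2, by simp [← hg]⟩
      · ext z
        simp
  rw [← himg]
  exact (Set.ncard_image_of_injective _
    (Submodule.map_injective_of_injective g.injective)).symm

/-- Double counting. -/
theorem design_card {F V : Type} [Field F] [Fintype F] [AddCommGroup V] [Module F V] [Finite V]
    {k m : ℕ} {S : Set (Submodule F V)} (hS1 : ∀ W ∈ S, finrank F W = k)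
    (hS2 : ∀ v : V, v ≠ 0 → {W | W ∈ S ∧ v ∈ W}.ncard = m) :
    S.ncard * (Fintype.card F ^ k - 1) = (Fintype.card F ^ finrank F V - 1) * m := by
  classical
  have hVf : Fintype V := Fintype.ofFinite V
  have hfin : S.Finite := Set.toFinite S
  rw [Set.ncard_eq_toFinset_card S hfin]
  have key := Finset.card_mul_eq_card_mul (s := (Finset.univ.filter (fun v : V => v ≠ 0)))
    (t := hfin.toFinset) (fun (v : V) (W : Submodule F V) => v ∈ W) (m := m)
    (n := Fintype.card F ^ k - 1) ?_ ?_
  · rw [← key, filter_ne', card_erase_of_mem (mem_univ _), card_univ,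
      Module.card_eq_pow_finrank (K := F) (V := V)]
  · intro v hv
    rw [← hS2 v (by simpa using hv), ← Set.ncard_coe_finset]
    congr 1
    ext X
    rw [Finset.mem_coe, mem_bipartiteAbove, Set.Finite.mem_toFinset]
    rfl
  · intro W hW
    rw [Set.Finite.mem_toFinset] at hW
    have h1 : (Finset.bipartiteBelow (fun (v : V) (W : Submodule F V) => v ∈ W)
        (Finset.univ.filter (fun v : V => v ≠ 0)) W) = (univ.filter (· ∈ W)).erase 0 := by
      ext v
      simp only [mem_bipartiteBelow, mem_filter, mem_univ, true_and, mem_erase]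
    rw [h1, card_erase_of_mem (by simp), ← Fintype.card_subtype,
      Module.card_eq_pow_finrank (K := F) (V := W), hS1 W hW]

/-- The members through `x` of some of the spreads. -/
theorem ncard_union {F V : Type} [Field F] [AddCommGroup V] [Module F V]
    {k M : ℕ} {S : Fin M → Set (Submodule F V)} (h1 : ∀ i, IsKSpread k (S i))
    (h2 : ∀ i j W, W ∈ S i → W ∈ S j → i = j) (J : Finset (Fin M)) {x : V} (hx : x ≠ 0) :
    {W : Submodule F V | (∃ j ∈ J, W ∈ S j) ∧ x ∈ W}.ncard = J.card := by
  choose w hw hu using fun j => (h1 j).2 x hx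
  have hinj : Function.Injective w := fun i j hij => h2 i j (w i) (hw i).1 (hij ▸ (hw j).1)
  have h3 : {W : Submodule F V | (∃ j ∈ J, W ∈ S j) ∧ x ∈ W} = w '' (J : Set (Fin M)) := by
    ext W
    constructor
    · rintro ⟨⟨j, hj, hW⟩, hxW⟩
      exact ⟨j, hj, (hu j W ⟨hW, hxW⟩).symm⟩
    · rintro ⟨j, hj, rfl⟩
      exact ⟨⟨j, hj, (hw j).1⟩, (hw j).2⟩
  rw [h3, Set.ncard_image_of_injective _ hinj, Set.ncard_coe_finset]

/-- For every finite field `K`, every `k ≥ 2` and every `N ≥ 1` there is a `v₀` such that for every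
multiple `v ≥ v₀` of `k` and all numbers `l 0, …, l (N - 1)` whose sum is the number of `k`-subspaces
of `K ^ v` through a point, there is a colouring of the `k`-subspaces with `N` colours such that each
point is in exactly `l i` of the `k`-subspaces of colour `i`. If all `l i` are equal, this is a large
set of `1`-designs, and for `N = 2` a halving. -/
theorem result :
    ∀ (K : Type) [Field K] [Fintype K] (k N : ℕ), 2 ≤ k → 1 ≤ N →
      ∃ v₀ : ℕ, ∀ v : ℕ, v₀ ≤ v → k ∣ v → ∀ l : Fin N → ℕ,
        (∀ P : Submodule K (Fin v → K), Module.finrank K P = 1 →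
          Set.ncard {W : Submodule K (Fin v → K) | Module.finrank K W = k ∧ P ≤ W} =
            ∑ i, l i) →
        ∃ c : Submodule K (Fin v → K) → Fin N,
          ∀ i : Fin N, ∀ P : Submodule K (Fin v → K), Module.finrank K P = 1 →
            Set.ncard {W : Submodule K (Fin v → K) |
                (Module.finrank K W = k ∧ c W = i) ∧ P ≤ W} = l i := by
  classical
  intro K _ _ k N hk hN
  obtain ⟨n0, hn0⟩ := fraction K k hk (1 / (N : ℝ)) (by positivity)
  refine ⟨n0 + 1, ?_⟩
  intro v hv hkv l hadm
  have hfin : finrank K (Fin v → K) = v := by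
    rw [finrank_fintype_fun_eq_card, Fintype.card_fin]
  obtain ⟨M, S, hS1, hS2, hS3⟩ := hn0 v (by omega) hkv (Fin v → K) hfin
  have hspan : ∀ (x : Fin v → K) (W : Submodule K (Fin v → K)),
      Submodule.span K {x} ≤ W ↔ x ∈ W := fun x W => by
    rw [Submodule.span_singleton_le_iff_mem]
  have hdeg : ∀ x : Fin v → K, x ≠ 0 →
      {W : Submodule K (Fin v → K) | finrank K W = k ∧ x ∈ W}.ncard = ∑ i, l i := fun x hx => by
    have h1 := hadm (Submodule.span K {x}) (finrank_span_singleton hx)
    simpa only [hspan] using h1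
  set L := ∑ i, l i with hL
  -- the largest of the numbers
  have hne : Nonempty (Fin N) := ⟨⟨0, by omega⟩⟩
  obtain ⟨m, hm⟩ : ∃ m : Fin N, ∀ i, l i ≤ l m := by
    obtain ⟨m, _, h⟩ := exists_max_image (univ : Finset (Fin N)) l ⟨⟨0, by omega⟩, mem_univ _⟩
    exact ⟨m, fun i => h i (mem_univ i)⟩
  have hLm : L ≤ N * l m := by
    have h1 : L ≤ ∑ _i : Fin N, l m := sum_le_sum fun i _ => hm i
    rwa [sum_const, card_univ, Fintype.card_fin, smul_eq_mul] at h1
  have hLs : (∑ i ∈ univ.erase m, l i) + l m = L := sum_erase_add _ _ (mem_univ m)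
  -- the number of spreads
  have hq2 : 2 ≤ Fintype.card K := Fintype.one_lt_card
  have hMμ : ∑ i ∈ univ.erase m, l i ≤ M := by
    have e1 := design_card (F := K) (V := Fin v → K) (k := k) (m := L)
      (S := {W | finrank K W = k}) (fun W hW => hW) (fun x hx => by
        rw [← hdeg x hx]; rfl)
    have e2 := design_card (F := K) (V := Fin v → K) (k := k) (m := M)
      (S := ⋃ i, S i) (fun W hW => by
        obtain ⟨i, hi⟩ := Set.mem_iUnion.1 hW
        exact (hS1 i).1 W hi) (fun x hx => by
        have h1 := ncard_union hS1 hS2 univ hx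
        rw [card_univ, Fintype.card_fin] at h1
        refine Eq.trans ?_ h1
        congr 1
        ext W
        simp)
    rw [hfin] at e1 e2
    set T := {W : Submodule K (Fin v → K) | finrank K W = k}.ncard
    set C := (⋃ i, S i).ncard
    have hqk : 1 < Fintype.card K ^ k := Nat.one_lt_pow (by omega) (by omega)
    have hqv : 1 < Fintype.card K ^ v := Nat.one_lt_pow (by omega) (by omega)
    set a := Fintype.card K ^ k - 1
    set b := Fintype.card K ^ v - 1
    have ha : 0 < a := by omega
    have hb : 0 < b := by omega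
    have hNR : (0 : ℝ) < N := by exact_mod_cast hN
    have h3 : ((N : ℝ) - 1) * T ≤ N * C := by
      have h4 := mul_le_mul_of_nonneg_left hS3 hNR.le
      have h5 : (N : ℝ) * ((1 - 1 / (N : ℝ)) * T) = (N - 1) * T := by
        field_simp
      rwa [h5] at h4
    have h4 : (N - 1) * T ≤ N * C := by
      have h5 : (((N - 1) * T : ℕ) : ℝ) ≤ ((N * C : ℕ) : ℝ) := by
        push_cast [Nat.cast_sub hN]
        exact h3
      exact_mod_cast h5
    have h5 : b * ((N - 1) * L) ≤ b * (N * M) := by
      calc b * ((N - 1) * L) = (N - 1) * (b * L) := by ring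
        _ = (N - 1) * (T * a) := by rw [e1]
        _ = ((N - 1) * T) * a := by ring
        _ ≤ (N * C) * a := Nat.mul_le_mul_right _ h4
        _ = N * (C * a) := by ring
        _ = N * (b * M) := by rw [e2]
        _ = b * (N * M) := by ring
    have h6 : (N - 1) * L ≤ N * M := Nat.le_of_mul_le_mul_left h5 hb
    have h7 : N * (∑ i ∈ univ.erase m, l i) ≤ N * M := by
      refine le_trans ?_ h6
      obtain ⟨n, rfl⟩ : ∃ n, N = n + 1 := ⟨N - 1, by omega⟩
      simp only [Nat.add_sub_cancel]
      nlinarith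
    exact Nat.le_of_mul_le_mul_left h7 (by omega)
  -- the colours of the spreads
  obtain ⟨e⟩ : Nonempty ((Σ i : {i : Fin N // i ≠ m}, Fin (l i)) ↪ Fin M) := by
    apply Function.Embedding.nonempty_of_card_le
    rw [Fintype.card_sigma, Fintype.card_fin]
    simp only [Fintype.card_fin]
    refine le_trans (le_of_eq ?_) hMμ
    rw [← Finset.sum_subtype (univ.erase m) (by simp) l]
  let f : Fin M → Fin N := fun j => if h : ∃ p, e p = j then (h.choose.1 : Fin N) else m
  have hf1 : ∀ p, f (e p) = (p.1 : Fin N) := by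
    intro p
    have h : ∃ p', e p' = e p := ⟨p, rfl⟩
    have h1 : h.choose = p := e.injective h.choose_spec
    simp only [f, dif_pos h, h1]
  have hf2 : ∀ j, f j ≠ m → ∃ p, e p = j := by
    intro j hj
    by_contra h
    exact hj (by simp only [f, dif_neg h])
  have hf3 : ∀ i, i ≠ m → (univ.filter (fun j => f j = i)).card = l i := by
    intro i hi
    have h1 : univ.filter (fun j => f j = i) =
        (univ : Finset (Fin (l i))).image (fun a => e ⟨⟨i, hi⟩, a⟩) := by
      ext j
      simp only [mem_filter, mem_univ, true_and, mem_image]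
      constructor
      · intro hj
        obtain ⟨⟨⟨i', hi'⟩, a⟩, rfl⟩ := hf2 j (by rw [hj]; exact hi)
        have h2 := hf1 ⟨⟨i', hi'⟩, a⟩
        rw [hj] at h2
        subst h2
        exact ⟨a, rfl⟩
      · rintro ⟨a, rfl⟩
        exact hf1 _
    rw [h1, card_image_of_injective, card_univ, Fintype.card_fin]
    intro a a' h
    have h2 := e.injective h
    simpa using h2
  have hf4 : (univ.filter (fun j => f j ≠ m)).card = ∑ i ∈ univ.erase m, l i := by
    have h1 : univ.filter (fun j => f j ≠ m) =
        (univ.erase m).biUnion (fun i => univ.filter (fun j => f j = i)) := by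
      ext j
      simp
    rw [h1, card_biUnion]
    · exact sum_congr rfl fun i hi => hf3 i (ne_of_mem_erase hi)
    · intro i _ i' _ hii
      rw [Function.onFun, Finset.disjoint_left]
      intro j h2 h3
      simp only [mem_filter, mem_univ, true_and] at h2 h3
      exact hii (h2.symm.trans h3)
  -- the colouring
  let c : Submodule K (Fin v → K) → Fin N := fun W =>
    if h : ∃ j : Fin M, W ∈ S j then f h.choose else m
  have hc1 : ∀ (W : Submodule K (Fin v → K)) (j : Fin M), W ∈ S j → c W = f j := by
    intro W j hW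
    have h : ∃ j : Fin M, W ∈ S j := ⟨j, hW⟩
    have h1 : h.choose = j := hS2 _ _ W h.choose_spec hW
    simp only [c, dif_pos h, h1]
  have hc2 : ∀ (W : Submodule K (Fin v → K)), c W ≠ m → ∃ j : Fin M, W ∈ S j := by
    intro W hW
    by_contra h
    exact hW (by simp only [c, dif_neg h])
  refine ⟨c, ?_⟩
  intro i P hP
  obtain ⟨x, hx, rfl⟩ := exists_span hP
  simp only [hspan]
  by_cases hi : i = m
  · -- the rest
    subst hi
    have h1 : {W : Submodule K (Fin v → K) | (finrank K W = k ∧ c W = i) ∧ x ∈ W} =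
        {W : Submodule K (Fin v → K) | finrank K W = k ∧ x ∈ W} \
        {W : Submodule K (Fin v → K) | (∃ j ∈ univ.filter (fun j : Fin M => f j ≠ i),
          W ∈ S j) ∧ x ∈ W} := by
      ext W
      simp only [Set.mem_ofPred_eq, mem_filter, mem_univ, true_and, Set.mem_sdiff]
      constructor
      · rintro ⟨⟨hW, hcW⟩, hxW⟩
        refine ⟨⟨hW, hxW⟩, ?_⟩
        rintro ⟨⟨j, hj2, hj⟩, _⟩
        exact hj2 ((hc1 W j hj).symm.trans hcW)
      · rintro ⟨⟨hW, hxW⟩, h⟩
        refine ⟨⟨hW, ?_⟩, hxW⟩
        by_contra hcW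
        obtain ⟨j, hj⟩ := hc2 W hcW
        exact h ⟨⟨j, by rw [← hc1 W j hj]; exact hcW, hj⟩, hxW⟩
    rw [h1, Set.ncard_sdiff, hdeg x hx, ncard_union hS1 hS2 _ hx, hf4]
    · omega
    · rintro W ⟨⟨j, _, hj⟩, hxW⟩
      exact ⟨(hS1 j).1 W hj, hxW⟩
  · -- a union of spreads
    have h1 : {W : Submodule K (Fin v → K) | (finrank K W = k ∧ c W = i) ∧ x ∈ W} =
        {W : Submodule K (Fin v → K) | (∃ j ∈ univ.filter (fun j : Fin M => f j = i),
          W ∈ S j) ∧ x ∈ W} := by
      ext W
      simp only [Set.mem_ofPred_eq, mem_filter, mem_univ, true_and]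
      constructor
      · rintro ⟨⟨_, hcW⟩, hxW⟩
        obtain ⟨j, hj⟩ := hc2 W (by rw [hcW]; exact hi)
        exact ⟨⟨j, (hc1 W j hj).symm.trans hcW, hj⟩, hxW⟩
      · rintro ⟨⟨j, hj1, hj⟩, hxW⟩
        exact ⟨⟨(hS1 j).1 W hj, (hc1 W j hj).trans hj1⟩, hxW⟩
    rw [h1, ncard_union hS1 hS2 _ hx, hf3 i hi]

end Pool.Agent.Results.MP_679a49_co.LargeSetsOnPoints
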